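import Mathlib

/-!
# Initial divisor sums: the numbers `N` that are initial divisor sums of some `n ≤ ε N`
-/

namespace Pool.Agent.H550V

open Finset

/-- sum of `1 / (k √k)` -/
lemma sumA (Y : ℕ) : ∑ k ∈ Icc 1 Y, (1 : ℝ) / (k * √k) ≤ 3 := by
  rcases Nat.eq_zero_or_pos Y with h | h
  · subst h; simp
  have key : ∀ Y : ℕ, 1 ≤ Y → ∑ k ∈ Icc 1 Y, (1 : ℝ) / (k * √k) ≤ 3 - 2 / √Y := by
    intro Y hY
    induction Y, hY using Nat.le_induction with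
    | base => simp; norm_num
    | succ Y hY ih =>
      rw [sum_Icc_succ_top (by omega)]
      have hY0 : (0 : ℝ) < Y := by exact_mod_cast hY
      have hu : 0 < √(Y : ℝ) := Real.sqrt_pos.mpr hY0
      have hv : 0 < √((Y + 1 : ℕ) : ℝ) := Real.sqrt_pos.mpr (by exact_mod_cast (by omega : 0 < Y + 1))
      have hu2 : √(Y : ℝ) ^ 2 = Y := Real.sq_sqrt hY0.le
      have hv2 : √((Y + 1 : ℕ) : ℝ) ^ 2 = Y + 1 := by
        rw [Real.sq_sqrt (by positivity)]; push_cast; ring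
      have huv : √(Y : ℝ) ≤ √((Y + 1 : ℕ) : ℝ) := Real.sqrt_le_sqrt (by push_cast; linarith)
      generalize √(Y : ℝ) = u at *
      generalize √((Y + 1 : ℕ) : ℝ) = v at *
      have hc : ((Y + 1 : ℕ) : ℝ) = v ^ 2 := by push_cast; linarith
      rw [hc]
      have h1 : 1 / (v ^ 2 * v) ≤ 2 / u - 2 / v := by
        have e1 : 2 / u - 2 / v = 2 * (v - u) / (u * v) := by field_simp
        have e2 : (v - u) * (v + u) = 1 := by nlinarith
        have e3 : v - u = 1 / (v + u) := by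
          rw [eq_div_iff (by positivity)]; exact e2
        rw [e1, e3, mul_one_div, div_div, div_le_div_iff₀ (by positivity) (by positivity)]
        have e4 : (v + u) * (u * v) ≤ (v + v) * (v * v) := by gcongr
        nlinarith
      linarith
  have h1 := key Y h
  have h2 : 0 ≤ 2 / √(Y : ℝ) := by positivity
  linarith

lemma sumB (Y : ℕ) : ∑ g ∈ Icc 1 Y, (1 : ℝ) / (g : ℝ) ^ 2 ≤ 2 := by
  rcases Nat.eq_zero_or_pos Y with h | h
  · subst h; simp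
  have key : ∀ Y : ℕ, 1 ≤ Y → ∑ g ∈ Icc 1 Y, (1 : ℝ) / (g : ℝ) ^ 2 ≤ 2 - 1 / Y := by
    intro Y hY
    induction Y, hY using Nat.le_induction with
    | base => simp; norm_num
    | succ Y hY ih =>
      rw [sum_Icc_succ_top (by omega)]
      have hY0 : (0 : ℝ) < Y := by exact_mod_cast hY
      have h1 : (1 : ℝ) / ((Y + 1 : ℕ) : ℝ) ^ 2 ≤ 1 / Y - 1 / ((Y + 1 : ℕ) : ℝ) := by
        push_cast
        rw [div_sub_div _ _ hY0.ne' (by positivity), div_le_div_iff₀ (by positivity) (by positivity)]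
        nlinarith
      linarith
  have h1 := key Y h
  have h2 : 0 ≤ 1 / (Y : ℝ) := by positivity
  linarith

/-- the sum of `1 / √a` over the divisors of `n` -/
noncomputable def h (n : ℕ) : ℝ := ∑ a ∈ n.divisors, 1 / √(a : ℝ)

lemma mult_sum (Y g : ℕ) (hg : 1 ≤ g) :
    ∑ a ∈ (Icc 1 Y).filter (fun a => g ∣ a), (1 : ℝ) / (a * √a) ≤ 3 / (g * √g) := by
  have hg0 : (0 : ℝ) < g := by exact_mod_cast hg
  have hsq : 0 < √(g : ℝ) := Real.sqrt_pos.mpr hg0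
  have h1 : (Icc 1 Y).filter (fun a => g ∣ a) ⊆ (Icc 1 Y).image fun k => g * k := by
    intro a ha
    rw [mem_filter, mem_Icc] at ha
    obtain ⟨⟨h1, h2⟩, k, rfl⟩ := ha
    rw [mem_image]
    refine ⟨k, ?_, rfl⟩
    rw [mem_Icc]
    constructor
    · exact Nat.pos_of_ne_zero fun h => by rw [h, mul_zero] at h1; omega
    · exact le_trans (Nat.le_mul_of_pos_left k hg) h2
  calc ∑ a ∈ (Icc 1 Y).filter (fun a => g ∣ a), (1 : ℝ) / (a * √a)
      ≤ ∑ a ∈ (Icc 1 Y).image (fun k => g * k), (1 : ℝ) / (a * √a) :=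
        sum_le_sum_of_subset_of_nonneg h1 fun _ _ _ => by positivity
    _ = ∑ k ∈ Icc 1 Y, (1 : ℝ) / (((g * k : ℕ) : ℝ) * √((g * k : ℕ) : ℝ)) :=
        sum_image fun a _ b _ hab => Nat.eq_of_mul_eq_mul_left hg hab
    _ = ∑ k ∈ Icc 1 Y, 1 / (g * √g) * ((1 : ℝ) / (k * √k)) := by
        refine sum_congr rfl fun k _ => ?_
        push_cast
        rw [Real.sqrt_mul hg0.le, div_mul_div_comm, one_mul]
        congr 1
        ring
    _ = 1 / (g * √g) * ∑ k ∈ Icc 1 Y, (1 : ℝ) / (k * √k) := by rw [mul_sum]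
    _ ≤ 1 / (g * √g) * 3 := by gcongr; exact sumA Y
    _ = 3 / (g * √g) := by ring

lemma count_mult (Y a b : ℕ) (ha : 1 ≤ a) (hb : 1 ≤ b) :
    (#((Icc 1 Y).filter fun n => a ∣ n ∧ b ∣ n) : ℝ) ≤ Y * (Nat.gcd a b) / (a * b) := by
  have h1 : (Icc 1 Y).filter (fun n => a ∣ n ∧ b ∣ n) ⊆ (Icc 1 (Y / Nat.lcm a b)).image fun k => Nat.lcm a b * k := by
    intro n hn
    rw [mem_filter, mem_Icc] at hn
    obtain ⟨⟨h1, h2⟩, h3, h4⟩ := hn
    obtain ⟨k, rfl⟩ := Nat.lcm_dvd h3 h4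
    rw [mem_image]
    have hl : 0 < Nat.lcm a b := Nat.lcm_pos ha hb
    refine ⟨k, ?_, rfl⟩
    rw [mem_Icc]
    constructor
    · exact Nat.pos_of_ne_zero fun h => by rw [h, mul_zero] at h1; omega
    · rw [Nat.le_div_iff_mul_le hl]; rw [mul_comm]; exact h2
  have h2 := (card_le_card h1).trans card_image_le
  rw [Nat.card_Icc, Nat.add_sub_cancel] at h2
  have h3 : (#((Icc 1 Y).filter fun n => a ∣ n ∧ b ∣ n) : ℝ) ≤ ((Y / Nat.lcm a b : ℕ) : ℝ) := by exact_mod_cast h2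
  refine h3.trans (Nat.cast_div_le.trans (le_of_eq ?_))
  have h4 : (Nat.gcd a b : ℝ) * Nat.lcm a b = a * b := by exact_mod_cast Nat.gcd_mul_lcm a b
  have ha0 : (0 : ℝ) < a := by exact_mod_cast ha
  have hb0 : (0 : ℝ) < b := by exact_mod_cast hb
  have hl : (0 : ℝ) < Nat.lcm a b := by exact_mod_cast Nat.lcm_pos ha hb
  rw [div_eq_div_iff hl.ne' (by positivity)]
  calc (Y : ℝ) * (a * b) = Y * (Nat.gcd a b * Nat.lcm a b) := by rw [h4]
    _ = _ := by ring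

theorem sum_h_sq (Y : ℕ) : ∑ n ∈ Icc 1 Y, h n ^ 2 ≤ 18 * Y := by
  classical
  have hdiv : ∀ n ∈ Icc 1 Y, h n = ∑ a ∈ Icc 1 Y, if a ∣ n then 1 / √(a : ℝ) else 0 := by
    intro n hn
    rw [mem_Icc] at hn
    unfold h
    rw [← sum_filter]
    refine sum_congr ?_ fun _ _ => rfl
    ext a
    rw [Nat.mem_divisors, mem_filter, mem_Icc]
    constructor
    · rintro ⟨h1, h2⟩
      exact ⟨⟨Nat.pos_of_dvd_of_pos h1 (by omega), (Nat.le_of_dvd (by omega) h1).trans hn.2⟩, h1⟩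
    · rintro ⟨-, h1⟩
      exact ⟨h1, by omega⟩
  calc ∑ n ∈ Icc 1 Y, h n ^ 2
      = ∑ n ∈ Icc 1 Y, ∑ a ∈ Icc 1 Y, ∑ b ∈ Icc 1 Y,
          (if a ∣ n ∧ b ∣ n then 1 / √(a : ℝ) * (1 / √(b : ℝ)) else 0) := by
        refine sum_congr rfl fun n hn => ?_
        rw [hdiv n hn, sq, sum_mul_sum]
        refine sum_congr rfl fun a _ => sum_congr rfl fun b _ => ?_
        by_cases h1 : a ∣ n <;> by_cases h2 : b ∣ n <;> simp [h1, h2]
    _ = ∑ a ∈ Icc 1 Y, ∑ b ∈ Icc 1 Y, 1 / √(a : ℝ) * (1 / √(b : ℝ)) *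
          (#((Icc 1 Y).filter fun n => a ∣ n ∧ b ∣ n) : ℝ) := by
        rw [sum_comm]
        refine sum_congr rfl fun a _ => ?_
        rw [sum_comm]
        refine sum_congr rfl fun b _ => ?_
        rw [← sum_filter, sum_const, nsmul_eq_mul]
        ring
    _ ≤ ∑ a ∈ Icc 1 Y, ∑ b ∈ Icc 1 Y, 1 / √(a : ℝ) * (1 / √(b : ℝ)) * (Y * (Nat.gcd a b) / (a * b)) := by
        refine sum_le_sum fun a ha => sum_le_sum fun b hb => ?_
        rw [mem_Icc] at ha hb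
        exact mul_le_mul_of_nonneg_left (count_mult Y a b ha.1 hb.1) (by positivity)
    _ ≤ ∑ a ∈ Icc 1 Y, ∑ b ∈ Icc 1 Y, ∑ g ∈ Icc 1 Y, (if g ∣ a ∧ g ∣ b then
          (Y * g : ℝ) * (1 / (a * √a)) * (1 / (b * √b)) else 0) := by
        refine sum_le_sum fun a ha => sum_le_sum fun b hb => ?_
        rw [mem_Icc] at ha hb
        have ha0 : (0 : ℝ) < a := by exact_mod_cast ha.1
        have hb0 : (0 : ℝ) < b := by exact_mod_cast hb.1
        have hsa : 0 < √(a : ℝ) := Real.sqrt_pos.mpr ha0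
        have hsb : 0 < √(b : ℝ) := Real.sqrt_pos.mpr hb0
        have hg : Nat.gcd a b ∈ Icc 1 Y := by
          rw [mem_Icc]
          exact ⟨Nat.gcd_pos_of_pos_left b ha.1, (Nat.le_of_dvd ha.1 (Nat.gcd_dvd_left a b)).trans ha.2⟩
        refine le_trans (le_of_eq ?_) (single_le_sum (f := fun g => if g ∣ a ∧ g ∣ b then
          (Y * g : ℝ) * (1 / (a * √a)) * (1 / (b * √b)) else 0) (fun g _ => ?_) hg)
        · simp only [Nat.gcd_dvd_left, Nat.gcd_dvd_right, and_self, if_true]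
          field_simp
        · split_ifs <;> positivity
    _ = ∑ g ∈ Icc 1 Y, (Y * g : ℝ) * (∑ a ∈ (Icc 1 Y).filter (fun a => g ∣ a), (1 : ℝ) / (a * √a)) ^ 2 := by
        have e1 : ∀ a ∈ Icc 1 Y, ∑ b ∈ Icc 1 Y, ∑ g ∈ Icc 1 Y, (if g ∣ a ∧ g ∣ b then
          (Y * g : ℝ) * (1 / (a * √a)) * (1 / (b * √b)) else 0) = ∑ g ∈ Icc 1 Y, ∑ b ∈ Icc 1 Y, (if g ∣ a ∧ g ∣ b then
          (Y * g : ℝ) * (1 / (a * √a)) * (1 / (b * √b)) else 0) := fun a _ => sum_comm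
        rw [sum_congr rfl e1, sum_comm]
        refine sum_congr rfl fun g _ => ?_
        rw [sq, sum_filter, sum_mul_sum, mul_sum]
        refine sum_congr rfl fun a _ => ?_
        rw [mul_sum]
        refine sum_congr rfl fun b _ => ?_
        by_cases h1 : g ∣ a <;> by_cases h2 : g ∣ b <;> simp [h1, h2, mul_assoc]
    _ ≤ ∑ g ∈ Icc 1 Y, 9 * Y * (1 / (g : ℝ) ^ 2) := by
        refine sum_le_sum fun g hg => ?_
        rw [mem_Icc] at hg
        have hg0 : (0 : ℝ) < g := by exact_mod_cast hg.1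
        have hsg : 0 < √(g : ℝ) := Real.sqrt_pos.mpr hg0
        have hsg2 : √(g : ℝ) ^ 2 = g := Real.sq_sqrt hg0.le
        have h1 := mult_sum Y g hg.1
        have h0 : 0 ≤ ∑ a ∈ (Icc 1 Y).filter (fun a => g ∣ a), (1 : ℝ) / (a * √a) :=
          sum_nonneg fun _ _ => by positivity
        calc (Y * g : ℝ) * (∑ a ∈ (Icc 1 Y).filter (fun a => g ∣ a), (1 : ℝ) / (a * √a)) ^ 2
            ≤ (Y * g : ℝ) * (3 / (g * √g)) ^ 2 := by gcongr
          _ = 9 * Y * (1 / (g : ℝ) ^ 2) := by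
            rw [div_pow, mul_pow, hsg2]
            field_simp
            norm_num
    _ = 9 * Y * ∑ g ∈ Icc 1 Y, (1 : ℝ) / (g : ℝ) ^ 2 := by rw [mul_sum]
    _ ≤ 9 * Y * 2 := by gcongr; exact sumB Y
    _ = 18 * Y := by ring

/-- the initial sum of the divisors exceeding `1` up to `d` -/
def isum (n d : ℕ) : ℕ := ∑ e ∈ n.divisors.filter (fun e => 1 < e ∧ e ≤ d), e

lemma isum_bound (n : ℕ) (hn : 1 ≤ n) : ∑ d ∈ n.divisors, (isum n d : ℝ) / n ≤ h n ^ 2 := by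
  have hn0 : (0 : ℝ) < n := by exact_mod_cast hn
  have h1 : h n = ∑ d ∈ n.divisors, √(d : ℝ) / √(n : ℝ) := by
    unfold h
    rw [← Nat.sum_div_divisors n fun a => 1 / √(a : ℝ)]
    refine sum_congr rfl fun d hd => ?_
    have hd1 := Nat.mem_divisors.mp hd
    have hd0 : (0 : ℝ) < d := by exact_mod_cast Nat.pos_of_dvd_of_pos hd1.1 (by omega)
    rw [Nat.cast_div hd1.1 hd0.ne', Real.sqrt_div hn0.le, one_div_div]
  rw [h1, sq, sum_mul_sum]
  refine sum_le_sum fun d hd => ?_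
  unfold isum
  push_cast
  rw [sum_div]
  calc ∑ e ∈ n.divisors.filter (fun e => 1 < e ∧ e ≤ d), (e : ℝ) / n
      ≤ ∑ e ∈ n.divisors.filter (fun e => 1 < e ∧ e ≤ d), √(d : ℝ) / √(n : ℝ) * (√(e : ℝ) / √(n : ℝ)) := by
        refine sum_le_sum fun e he => ?_
        rw [mem_filter] at he
        have h3 : (e : ℝ) ≤ d := by exact_mod_cast he.2.2
        have h4 : √(e : ℝ) ≤ √(d : ℝ) := Real.sqrt_le_sqrt h3
        rw [div_mul_div_comm, Real.mul_self_sqrt hn0.le]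
        refine div_le_div_of_nonneg_right ?_ hn0.le
        calc (e : ℝ) = √(e : ℝ) * √(e : ℝ) := (Real.mul_self_sqrt (Nat.cast_nonneg _)).symm
          _ ≤ √(d : ℝ) * √(e : ℝ) := by gcongr
    _ ≤ ∑ e ∈ n.divisors, √(d : ℝ) / √(n : ℝ) * (√(e : ℝ) / √(n : ℝ)) :=
        sum_le_sum_of_subset_of_nonneg (filter_subset _ _) fun _ _ _ => by positivity

/-- few numbers up to `x` are initial divisor sums of some `n ≤ ε N` -/
theorem few (ε : ℝ) (hε : 0 < ε) (x : ℕ) :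
    ({N : ℕ | 1 ≤ N ∧ N ≤ x ∧ ∃ n d : ℕ, d ∣ n ∧ 1 < d ∧ 1 ≤ n ∧ N = isum n d ∧ (n : ℝ) ≤ ε * N}.ncard : ℝ) ≤
      18 * ε ^ 2 * x := by
  classical
  obtain ⟨Y, hY⟩ : ∃ Y : ℕ, Y = ⌊ε * x⌋₊ := ⟨_, rfl⟩
  have hYx : (Y : ℝ) ≤ ε * x := by rw [hY]; exact Nat.floor_le (by positivity)
  obtain ⟨P, hP⟩ : ∃ P : Finset (Σ _ : ℕ, ℕ), P = (Icc 1 Y).sigma fun n => n.divisors.filter fun d =>
    (n : ℝ) ≤ ε * isum n d := ⟨_, rfl⟩
  have hsub : {N : ℕ | 1 ≤ N ∧ N ≤ x ∧ ∃ n d : ℕ, d ∣ n ∧ 1 < d ∧ 1 ≤ n ∧ N = isum n d ∧ (n : ℝ) ≤ ε * N} ⊆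
      ((P.image fun p => isum p.1 p.2 : Finset ℕ) : Set ℕ) := by
    rintro N ⟨h1, h2, n, d, h3, h4, h5, h6, h7⟩
    rw [mem_coe, mem_image]
    refine ⟨⟨n, d⟩, ?_, h6.symm⟩
    rw [hP, mem_sigma, mem_Icc, mem_filter, Nat.mem_divisors]
    refine ⟨⟨h5, ?_⟩, ⟨h3, Nat.pos_iff_ne_zero.mp h5⟩, by rw [← h6]; exact h7⟩
    change n ≤ Y
    rw [hY]
    refine Nat.le_floor (h7.trans ?_)
    have : (N : ℝ) ≤ x := by exact_mod_cast h2
    gcongr
  have h1 : ({N : ℕ | 1 ≤ N ∧ N ≤ x ∧ ∃ n d : ℕ, d ∣ n ∧ 1 < d ∧ 1 ≤ n ∧ N = isum n d ∧ (n : ℝ) ≤ ε * N}.ncard : ℝ) ≤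
      #P := by
    have := Set.ncard_le_ncard hsub (Finset.finite_toSet _)
    rw [Set.ncard_coe_finset] at this
    exact_mod_cast this.trans card_image_le
  refine h1.trans ?_
  have h2 : (#P : ℝ) = ∑ n ∈ Icc 1 Y, (#(n.divisors.filter fun d => (n : ℝ) ≤ ε * isum n d) : ℝ) := by
    rw [hP, card_sigma]; push_cast; rfl
  rw [h2]
  calc ∑ n ∈ Icc 1 Y, (#(n.divisors.filter fun d => (n : ℝ) ≤ ε * isum n d) : ℝ)
      ≤ ∑ n ∈ Icc 1 Y, ε * h n ^ 2 := by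
        refine sum_le_sum fun n hn => ?_
        rw [mem_Icc] at hn
        have hn0 : (0 : ℝ) < n := by exact_mod_cast hn.1
        refine le_trans ?_ (mul_le_mul_of_nonneg_left (isum_bound n hn.1) hε.le)
        rw [card_eq_sum_ones, Nat.cast_sum, mul_sum]
        calc ∑ d ∈ n.divisors.filter (fun d => (n : ℝ) ≤ ε * isum n d), ((1 : ℕ) : ℝ)
            ≤ ∑ d ∈ n.divisors.filter (fun d => (n : ℝ) ≤ ε * isum n d), ε * ((isum n d : ℝ) / n) := by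
              refine sum_le_sum fun d hd => ?_
              rw [mem_filter] at hd
              rw [mul_div_assoc', Nat.cast_one, le_div_iff₀ hn0, one_mul]
              exact hd.2
          _ ≤ ∑ d ∈ n.divisors, ε * ((isum n d : ℝ) / n) :=
              sum_le_sum_of_subset_of_nonneg (filter_subset _ _) fun _ _ _ => by positivity
    _ = ε * ∑ n ∈ Icc 1 Y, h n ^ 2 := by rw [mul_sum]
    _ ≤ ε * (18 * Y) := by gcongr; exact sum_h_sq Y
    _ ≤ ε * (18 * (ε * x)) := by gcongr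
    _ = 18 * ε ^ 2 * x := by ring

end Pool.Agent.H550V
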